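import Pool.Agent.H.MP_475ccd_co.h83.Defs

/-!
# MP_475ccd_co: counting lemmas
-/

set_option autoImplicit false

namespace H83Q

open Finset

/-- elements sharing their value with another element are at least two per value -/
theorem two_mul_card_image {V β : Type*} [DecidableEq V] [DecidableEq β] (S : Finset V)
    (f : V → β) :
    2 * (S.image f).card + (S.filter (fun s => ∃ t ∈ S, t ≠ s ∧ f t = f s)).card ≤ 2 * S.card := by
  classical
  set X := S.filter (fun s => ∃ t ∈ S, t ≠ s ∧ f t = f s) with hX
  set Y := S.filter (fun s => ¬ ∃ t ∈ S, t ≠ s ∧ f t = f s) with hY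
  have h1 : X.card + Y.card = S.card := by
    rw [hX, hY]
    exact Finset.card_filter_add_card_filter_not _
  have h2 : (S.image f).card ≤ (X.image f).card + Y.card := by
    have : S.image f ⊆ X.image f ∪ Y.image f := by
      intro b hb
      obtain ⟨s, hs, rfl⟩ := Finset.mem_image.1 hb
      by_cases h : ∃ t ∈ S, t ≠ s ∧ f t = f s
      · exact Finset.mem_union_left _ (Finset.mem_image_of_mem f (Finset.mem_filter.2 ⟨hs, h⟩))
      · exact Finset.mem_union_right _ (Finset.mem_image_of_mem f (Finset.mem_filter.2 ⟨hs, h⟩))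
    calc (S.image f).card ≤ (X.image f ∪ Y.image f).card := Finset.card_le_card this
      _ ≤ (X.image f).card + (Y.image f).card := Finset.card_union_le _ _
      _ ≤ (X.image f).card + Y.card := by
        have := Finset.card_image_le (s := Y) (f := f)
        omega
  have h3 : 2 * (X.image f).card ≤ X.card := by
    refine Finset.mul_card_image_le_card_of_maps_to (f := f) (s := X) (t := X.image f)
      (fun a ha => Finset.mem_image_of_mem f ha) 2 ?_
    intro b hb
    obtain ⟨s, hs, rfl⟩ := Finset.mem_image.1 hb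
    obtain ⟨hsS, t, htS, hts, hft⟩ := Finset.mem_filter.1 hs
    have ht : t ∈ X := Finset.mem_filter.2 ⟨htS, s, hsS, hts.symm, hft.symm⟩
    have : ({s, t} : Finset V) ⊆ X.filter (fun a => f a = f s) := by
      intro a ha
      rcases Finset.mem_insert.1 ha with rfl | ha
      · exact Finset.mem_filter.2 ⟨hs, rfl⟩
      · rw [Finset.mem_singleton.1 ha]
        exact Finset.mem_filter.2 ⟨ht, hft⟩
    calc 2 = ({s, t} : Finset V).card := (Finset.card_pair hts.symm).symm
      _ ≤ _ := Finset.card_le_card this
  omega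

/-- two far columns against close rows -/
theorem two_mul_card_rows (Rc M N : Finset ℤ) (a b : ℤ)
    (hd : ∀ y ∈ Rc, ∀ y' ∈ Rc, y - y' < b - a)
    (ha : ∀ y ∈ Rc, a - y ∈ M ∨ a + y ∈ N) (hb : ∀ y ∈ Rc, b - y ∈ M ∨ b + y ∈ N) :
    2 * Rc.card ≤ M.card + N.card := by
  classical
  have key : ∀ z : ℤ, (∀ y ∈ Rc, z - y ∈ M ∨ z + y ∈ N) →
      Rc.card ≤ ((Rc.filter (fun y => z - y ∈ M)).image (fun y => z - y)).card +
        ((Rc.filter (fun y => z + y ∈ N)).image (fun y => z + y)).card := by
    intro z hz
    rw [Finset.card_image_of_injective _ (fun y y' h => by simpa using h),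
      Finset.card_image_of_injective _ (fun y y' h => by simpa using h)]
    calc Rc.card ≤ (Rc.filter (fun y => z - y ∈ M) ∪ Rc.filter (fun y => z + y ∈ N)).card := by
          refine Finset.card_le_card ?_
          intro y hy
          rcases hz y hy with h | h
          · exact Finset.mem_union_left _ (Finset.mem_filter.2 ⟨hy, h⟩)
          · exact Finset.mem_union_right _ (Finset.mem_filter.2 ⟨hy, h⟩)
      _ ≤ _ := Finset.card_union_le _ _
  have h1 := key a ha
  have h2 := key b hb
  have hM : ((Rc.filter (fun y => a - y ∈ M)).image (fun y => a - y)).card +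
      ((Rc.filter (fun y => b - y ∈ M)).image (fun y => b - y)).card ≤ M.card := by
    rw [← Finset.card_union_of_disjoint]
    · refine Finset.card_le_card ?_
      intro m hm
      rcases Finset.mem_union.1 hm with h | h
      · obtain ⟨y, hy, rfl⟩ := Finset.mem_image.1 h
        exact (Finset.mem_filter.1 hy).2
      · obtain ⟨y, hy, rfl⟩ := Finset.mem_image.1 h
        exact (Finset.mem_filter.1 hy).2
    · rw [Finset.disjoint_left]
      intro m hm hm'
      obtain ⟨y, hy, rfl⟩ := Finset.mem_image.1 hm
      obtain ⟨y', hy', h⟩ := Finset.mem_image.1 hm'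
      have := hd y' (Finset.mem_filter.1 hy').1 y (Finset.mem_filter.1 hy).1
      omega
  have hN : ((Rc.filter (fun y => a + y ∈ N)).image (fun y => a + y)).card +
      ((Rc.filter (fun y => b + y ∈ N)).image (fun y => b + y)).card ≤ N.card := by
    rw [← Finset.card_union_of_disjoint]
    · refine Finset.card_le_card ?_
      intro m hm
      rcases Finset.mem_union.1 hm with h | h
      · obtain ⟨y, hy, rfl⟩ := Finset.mem_image.1 h
        exact (Finset.mem_filter.1 hy).2
      · obtain ⟨y, hy, rfl⟩ := Finset.mem_image.1 h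
        exact (Finset.mem_filter.1 hy).2
    · rw [Finset.disjoint_left]
      intro m hm hm'
      obtain ⟨y, hy, rfl⟩ := Finset.mem_image.1 hm
      obtain ⟨y', hy', h⟩ := Finset.mem_image.1 hm'
      have := hd y (Finset.mem_filter.1 hy).1 y' (Finset.mem_filter.1 hy').1
      omega
  omega

/-- Spencer's argument, for lines in general position -/
theorem spencer (n : ℕ) (C R M N : Finset ℤ)
    (H : ∀ x y : ℤ, 0 ≤ x → x < n → 0 ≤ y → y < n → x ∉ C → y ∉ R → x - y ∈ M ∨ x + y ∈ N) :
    2 * n ≤ 2 * R.card + M.card + N.card + 2 ∨ 2 * n ≤ 2 * C.card + M.card + N.card + 2 := by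
  classical
  set I : Finset ℤ := Finset.Ico 0 (n : ℤ) with hI
  have hIc : I.card = n := by simp [hI]
  have hCc : n ≤ (I \ C).card + C.card := by
    have := Finset.le_card_sdiff C I
    omega
  have hRc : n ≤ (I \ R).card + R.card := by
    have := Finset.le_card_sdiff R I
    omega
  rcases (I \ C).eq_empty_or_nonempty with h | hCne
  · rw [h] at hCc
    simp at hCc
    right
    omega
  rcases (I \ R).eq_empty_or_nonempty with h | hRne
  · rw [h] at hRc
    simp at hRc
    left
    omega
  have ha := Finset.min'_mem (I \ C) hCne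
  have hb := Finset.max'_mem (I \ C) hCne
  have hc := Finset.min'_mem (I \ R) hRne
  have hd := Finset.max'_mem (I \ R) hRne
  set a := (I \ C).min' hCne
  set b := (I \ C).max' hCne
  set c := (I \ R).min' hRne
  set d := (I \ R).max' hRne
  have mem : ∀ (Z : Finset ℤ) (z : ℤ), z ∈ I \ Z → 0 ≤ z ∧ z < n ∧ z ∉ Z := by
    intro Z z hz
    rw [Finset.mem_sdiff, hI, Finset.mem_Ico] at hz
    exact ⟨hz.1.1, hz.1.2, hz.2⟩
  by_cases hle : d - c ≤ b - a
  · left
    have h := two_mul_card_rows ((I \ R).erase d) M N a b ?_ ?_ ?_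
    · rw [Finset.card_erase_of_mem hd] at h
      omega
    · intro y hy y' hy'
      have h1 : y ≤ d := Finset.le_max' _ _ (Finset.mem_of_mem_erase hy)
      have h2 : y ≠ d := Finset.ne_of_mem_erase hy
      have h3 : c ≤ y' := Finset.min'_le _ _ (Finset.mem_of_mem_erase hy')
      omega
    · intro y hy
      obtain ⟨h1, h2, h3⟩ := mem R y (Finset.mem_of_mem_erase hy)
      obtain ⟨h4, h5, h6⟩ := mem C a ha
      exact H a y h4 h5 h1 h2 h6 h3
    · intro y hy
      obtain ⟨h1, h2, h3⟩ := mem R y (Finset.mem_of_mem_erase hy)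
      obtain ⟨h4, h5, h6⟩ := mem C b hb
      exact H b y h4 h5 h1 h2 h6 h3
  · right
    have h := two_mul_card_rows ((I \ C).erase b) (M.image (fun m => -m)) N c d ?_ ?_ ?_
    · rw [Finset.card_erase_of_mem hb] at h
      have := Finset.card_image_le (s := M) (f := fun m : ℤ => -m)
      omega
    · intro y hy y' hy'
      have h1 : y ≤ b := Finset.le_max' _ _ (Finset.mem_of_mem_erase hy)
      have h2 : y ≠ b := Finset.ne_of_mem_erase hy
      have h3 : a ≤ y' := Finset.min'_le _ _ (Finset.mem_of_mem_erase hy')
      omega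
    · intro x hx
      obtain ⟨h1, h2, h3⟩ := mem C x (Finset.mem_of_mem_erase hx)
      obtain ⟨h4, h5, h6⟩ := mem R c hc
      rcases H x c h1 h2 h4 h5 h3 h6 with h | h
      · left
        rw [Finset.mem_image]
        exact ⟨x - c, h, by ring⟩
      · right
        rw [add_comm]
        exact h
    · intro x hx
      obtain ⟨h1, h2, h3⟩ := mem C x (Finset.mem_of_mem_erase hx)
      obtain ⟨h4, h5, h6⟩ := mem R d hd
      rcases H x d h1 h2 h4 h5 h3 h6 with h | h
      · left
        rw [Finset.mem_image]
        exact ⟨x - d, h, by ring⟩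
      · right
        rw [add_comm]
        exact h

end H83Q
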