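import Pool.Agent.H.MP_475ccd_co.h83.Abs

/-!
# MP_475ccd_co: maximal irredundant sets of queens, the two cases
-/

set_option autoImplicit false

namespace H83Q

open Finset

variable {n : ℕ}

def col (p : Fin n × Fin n) : ℤ := (p.1 : ℤ)
def row (p : Fin n × Fin n) : ℤ := (p.2 : ℤ)
def dif (p : Fin n × Fin n) : ℤ := (p.1 : ℤ) - (p.2 : ℤ)
def sm (p : Fin n × Fin n) : ℤ := (p.1 : ℤ) + (p.2 : ℤ)

/-- `q` is attacked by a queen on `p`, or equal to `p` -/
def Att (p q : Fin n × Fin n) : Prop := col p = col q ∨ row p = row q ∨ dif p = dif q ∨ sm p = sm q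

theorem att_refl (p : Fin n × Fin n) : Att p p := Or.inl rfl

theorem att_symm {p q : Fin n × Fin n} (h : Att p q) : Att q p := by
  rcases h with h | h | h | h
  · exact Or.inl h.symm
  · exact Or.inr (Or.inl h.symm)
  · exact Or.inr (Or.inr (Or.inl h.symm))
  · exact Or.inr (Or.inr (Or.inr h.symm))

theorem inNbr_iff (p q : Fin n × Fin n) : InNbr (queens n) p q ↔ Att p q := by
  constructor
  · rintro (rfl | ⟨-, h | h | h⟩)
    · exact att_refl _
    · left
      simp [col, h]
    · right; left
      simp [row, h]
    · rcases abs_eq_abs.1 h with h | h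
      · right; right; left
        unfold dif
        omega
      · right; right; right
        unfold sm
        omega
  · intro h
    by_cases hpq : q = p
    · exact Or.inl hpq
    · refine Or.inr ⟨fun h => hpq h.symm, ?_⟩
      rcases h with h | h | h | h
      · left
        unfold col at h
        exact Fin.ext (by omega)
      · right; left
        unfold row at h
        exact Fin.ext (by omega)
      · right; right
        unfold dif at h
        rw [abs_eq_abs]
        left
        omega
      · right; right
        unfold sm at h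
        rw [abs_eq_abs]
        right
        omega

/-- the two properties of maximal irredundant sets which are used -/
structure Good (S : Finset (Fin n × Fin n)) : Prop where
  priv : ∀ s ∈ S, ∃ w, Att s w ∧ ∀ t ∈ S, t ≠ s → ¬ Att t w
  maxi : ∀ v, v ∉ S → (∀ w, Att v w → ∃ t ∈ S, Att t w) ∨
    ∃ s ∈ S, ∀ w, Att s w → (∀ t ∈ S, t ≠ s → ¬ Att t w) → Att v w

theorem good_of_max {S : Finset (Fin n × Fin n)} (h : MaxIrredundant (queens n) S) : Good S := by
  constructor
  · intro s hs
    obtain ⟨w, h1, h2⟩ := h.1 s hs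
    exact ⟨w, (inNbr_iff _ _).1 h1, fun t ht hts hatt => h2 t ht hts ((inNbr_iff _ _).2 hatt)⟩
  · intro v hv
    have hnot : ¬ Irredundant (queens n) (insert v S) := by
      intro hi
      have := h.2 _ hi (Finset.subset_insert v S)
      exact hv (this ▸ Finset.mem_insert_self v S)
    unfold Irredundant at hnot
    push Not at hnot
    obtain ⟨s, hs, hw⟩ := hnot
    rcases Finset.mem_insert.1 hs with rfl | hsS
    · left
      intro w hatt
      obtain ⟨u, hu, hus, huw⟩ := hw w ((inNbr_iff _ _).2 hatt)
      rcases Finset.mem_insert.1 hu with rfl | huS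
      · exact absurd rfl hus
      · exact ⟨u, huS, (inNbr_iff _ _).1 huw⟩
    · right
      refine ⟨s, hsS, ?_⟩
      intro w hatt hpriv
      obtain ⟨u, hu, hus, huw⟩ := hw w ((inNbr_iff _ _).2 hatt)
      rcases Finset.mem_insert.1 hu with rfl | huS
      · exact (inNbr_iff _ _).1 huw
      · exact absurd ((inNbr_iff _ _).1 huw) (hpriv u huS hus)

theorem att_swap (p q : Fin n × Fin n) : Att p.swap q.swap ↔ Att p q := by
  unfold Att col row dif sm
  simp only [Prod.fst_swap, Prod.snd_swap]
  omega

theorem good_swap {S : Finset (Fin n × Fin n)} (h : Good S) : Good (S.image Prod.swap) := by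
  have hmem : ∀ t, t ∈ S.image Prod.swap ↔ t.swap ∈ S := by
    intro t
    rw [Finset.mem_image]
    constructor
    · rintro ⟨a, ha, rfl⟩
      simpa using ha
    · intro ht
      exact ⟨t.swap, ht, Prod.swap_swap t⟩
  have hatt : ∀ p q : Fin n × Fin n, Att p q ↔ Att p.swap q.swap := fun p q => (att_swap p q).symm
  constructor
  · intro s hs
    obtain ⟨w, h1, h2⟩ := h.priv _ ((hmem s).1 hs)
    refine ⟨w.swap, ?_, ?_⟩
    · rw [hatt, Prod.swap_swap]
      exact h1
    · intro t ht hts hatt'
      rw [hatt, Prod.swap_swap] at hatt'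
      exact h2 _ ((hmem t).1 ht) (fun h => hts (Prod.swap_injective h)) hatt'
  · intro v hv
    rcases h.maxi v.swap (fun h => hv ((hmem v).2 h)) with h1 | ⟨s, hs, h1⟩
    · left
      intro w hw
      obtain ⟨t, ht, htw⟩ := h1 w.swap ((hatt _ _).1 hw)
      refine ⟨t.swap, (hmem _).2 (by simpa using ht), ?_⟩
      rw [hatt, Prod.swap_swap]
      exact htw
    · right
      refine ⟨s.swap, (hmem _).2 (by simpa using hs), ?_⟩
      intro w hw hpr
      rw [hatt]
      refine h1 w.swap ?_ ?_
      · rw [hatt, Prod.swap_swap] at hw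
        exact hw
      · intro t ht hts htw
        refine hpr t.swap ((hmem _).2 (by simpa using ht)) (fun h => hts ?_) ?_
        · exact Prod.swap_injective h
        · rw [hatt, Prod.swap_swap]
          exact htw

/-- a column all whose squares are on lines of `S'`, up to the rows in `E` -/
theorem column_cover (S' : Finset (Fin n × Fin n)) (x : Fin n) (E : Finset ℤ)
    (h : ∀ y : Fin n, (∃ t ∈ S', row t = (y : ℤ) ∨ dif t = (x : ℤ) - y ∨ sm t = (x : ℤ) + y) ∨
      (y : ℤ) ∈ E) :
    n ≤ (S'.image row).card + (S'.image dif).card + (S'.image sm).card + E.card := by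
  classical
  have hI : (Finset.Ico 0 (n : ℤ)).card = n := by simp
  have hsub : Finset.Ico 0 (n : ℤ) ⊆ (((S'.image row) ∪ ((S'.image dif).image (fun m => (x : ℤ) - m))) ∪
      ((S'.image sm).image (fun m => m - (x : ℤ)))) ∪ E := by
    intro z hz
    rw [Finset.mem_Ico] at hz
    obtain ⟨y, rfl⟩ : ∃ y : Fin n, (y : ℤ) = z := by
      refine ⟨⟨z.toNat, by omega⟩, ?_⟩
      simp only []
      omega
    rcases h y with ⟨t, ht, h1 | h1 | h1⟩ | h1
    · refine Finset.mem_union_left _ (Finset.mem_union_left _ (Finset.mem_union_left _ ?_))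
      exact Finset.mem_image.2 ⟨t, ht, h1⟩
    · refine Finset.mem_union_left _ (Finset.mem_union_left _ (Finset.mem_union_right _ ?_))
      refine Finset.mem_image.2 ⟨dif t, Finset.mem_image_of_mem _ ht, ?_⟩
      rw [h1]
      ring
    · refine Finset.mem_union_left _ (Finset.mem_union_right _ ?_)
      refine Finset.mem_image.2 ⟨sm t, Finset.mem_image_of_mem _ ht, ?_⟩
      rw [h1]
      ring
    · exact Finset.mem_union_right _ h1
  have h1 := Finset.card_le_card hsub
  have h2 := Finset.card_union_le (((S'.image row) ∪ ((S'.image dif).image (fun m => (x : ℤ) - m))) ∪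
      ((S'.image sm).image (fun m => m - (x : ℤ)))) E
  have h3 := Finset.card_union_le ((S'.image row) ∪ ((S'.image dif).image (fun m => (x : ℤ) - m)))
      ((S'.image sm).image (fun m => m - (x : ℤ)))
  have h4 := Finset.card_union_le (S'.image row) ((S'.image dif).image (fun m => (x : ℤ) - m))
  have h5 := Finset.card_image_le (s := S'.image dif) (f := fun m => (x : ℤ) - m)
  have h6 := Finset.card_image_le (s := S'.image sm) (f := fun m => m - (x : ℤ))
  omega

/-- queens sharing their value of `f` with another queen -/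
def Sh (f : Fin n × Fin n → ℤ) (S : Finset (Fin n × Fin n)) : Finset (Fin n × Fin n) :=
  S.filter (fun s => ∃ t ∈ S, t ≠ s ∧ f t = f s)

theorem sh_card (f : Fin n × Fin n → ℤ) (S : Finset (Fin n × Fin n)) :
    2 * (S.image f).card + (Sh f S).card ≤ 2 * S.card := by
  unfold Sh
  exact two_mul_card_image S f

/-- a queen alone in its column cannot serve a square outside its column, if the column is not
nearly full -/
theorem alone_column {S : Finset (Fin n × Fin n)} {s v : Fin n × Fin n}
    (halone : ∀ t ∈ S, t ≠ s → col t ≠ col s) (hv : col v ≠ col s)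
    (h : ∀ w, Att s w → (∀ t ∈ S, t ≠ s → ¬ Att t w) → Att v w) :
    n ≤ ((S.erase s).image row).card + ((S.erase s).image dif).card +
      ((S.erase s).image sm).card + 3 := by
  classical
  have h1 := column_cover (S.erase s) s.1 {row v, col s - dif v, sm v - col s} ?_
  · have h2 : ({row v, col s - dif v, sm v - col s} : Finset ℤ).card ≤ 3 := Finset.card_le_three
    omega
  · intro y
    by_cases hpr : ∀ t ∈ S, t ≠ s → ¬ Att t (s.1, y)
    · right
      have hatt := h (s.1, y) (Or.inl rfl) hpr
      rw [Finset.mem_insert, Finset.mem_insert, Finset.mem_singleton]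
      rcases hatt with h1 | h1 | h1 | h1
      · exact absurd h1 hv
      · left
        rw [h1]
        rfl
      · right; left
        rw [h1]
        unfold col dif
        simp
      · right; right
        rw [h1]
        unfold col sm
        simp
    · left
      push Not at hpr
      obtain ⟨t, ht, hts, hatt⟩ := hpr
      refine ⟨t, Finset.mem_erase.2 ⟨hts, ht⟩, ?_⟩
      rcases hatt with h1 | h1 | h1 | h1
      · exact absurd h1 (halone t ht hts)
      · left
        rw [h1]
        rfl
      · right; left
        rw [h1]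
        rfl
      · right; right
        rw [h1]
        rfl

/-- Case A: no column is nearly full -/
theorem case_column {S : Finset (Fin n × Fin n)} (hS : Good S)
    (h1 : ∀ s ∈ S, ((S.erase s).image row).card + ((S.erase s).image dif).card +
      ((S.erase s).image sm).card + 4 ≤ n)
    (h2 : (S.image row).card + (S.image dif).card + (S.image sm).card < n) :
    2 * n ≤ 5 * S.card + 2 := by
  classical
  have hpr : ∃ pr : Fin n × Fin n → Fin n × Fin n, ∀ s ∈ S, Att s (pr s) ∧
      ∀ t ∈ S, t ≠ s → ¬ Att t (pr s) := by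
    choose! pr hpr using hS.priv
    exact ⟨pr, fun s hs => hpr s hs⟩
  obtain ⟨pr, hpr⟩ := hpr
  set T := (Sh col S).image pr with hT
  have hTc : T.card ≤ (Sh col S).card := Finset.card_image_le
  have hXS : (Sh col S).card ≤ S.card := Finset.card_le_card (Finset.filter_subset _ _)
  have hsh := sh_card col S
  have hsp := spencer n (S.image col ∪ T.image col) (T.image row) (T.image dif) (T.image sm) ?_
  · have e1 : (T.image row).card ≤ T.card := Finset.card_image_le
    have e2 : (T.image dif).card ≤ T.card := Finset.card_image_le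
    have e3 : (T.image sm).card ≤ T.card := Finset.card_image_le
    have e4 : (T.image col).card ≤ T.card := Finset.card_image_le
    have e5 := Finset.card_union_le (S.image col) (T.image col)
    omega
  · intro x y hx0 hxn hy0 hyn hxC hyR
    obtain ⟨x, rfl⟩ : ∃ x' : Fin n, (x' : ℤ) = x := ⟨⟨x.toNat, by omega⟩, by simp only []; omega⟩
    obtain ⟨y, rfl⟩ : ∃ y' : Fin n, (y' : ℤ) = y := ⟨⟨y.toNat, by omega⟩, by simp only []; omega⟩
    rw [Finset.mem_union, not_or] at hxC
    obtain ⟨hxS, hxT⟩ := hxC
    have hvS : ((x, y) : Fin n × Fin n) ∉ S := fun h => hxS (Finset.mem_image.2 ⟨(x, y), h, rfl⟩)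
    -- an unattacked square in column x
    have hu : ∃ z : Fin n, ∀ t ∈ S, ¬ Att t (x, z) := by
      by_contra hcon
      push Not at hcon
      have := column_cover S x ∅ ?_
      · simp at this
        omega
      · intro z
        left
        obtain ⟨t, ht, hatt⟩ := hcon z
        refine ⟨t, ht, ?_⟩
        rcases hatt with h | h | h | h
        · exact absurd (Finset.mem_image.2 ⟨t, ht, h⟩) hxS
        · left
          rw [h]
          rfl
        · right; left
          rw [h]
          rfl
        · right; right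
          rw [h]
          rfl
    obtain ⟨z, hz⟩ := hu
    rcases hS.maxi (x, y) hvS with h | ⟨s, hs, h⟩
    · obtain ⟨t, ht, htw⟩ := h (x, z) (Or.inl rfl)
      exact absurd htw (hz t ht)
    · have hsX : s ∈ Sh col S := by
        by_contra hns
        have halone : ∀ t ∈ S, t ≠ s → col t ≠ col s := by
          intro t ht hts hc
          exact hns (Finset.mem_filter.2 ⟨hs, t, ht, hts, hc⟩)
        have hv : col ((x, y) : Fin n × Fin n) ≠ col s := by
          intro hc
          exact hxS (Finset.mem_image.2 ⟨s, hs, hc.symm⟩)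
        have := alone_column halone hv h
        have := h1 s hs
        omega
      have hprT : pr s ∈ T := Finset.mem_image_of_mem pr hsX
      rcases h (pr s) (hpr s hs).1 (hpr s hs).2 with h3 | h3 | h3 | h3
      · exact absurd (Finset.mem_image.2 ⟨pr s, hprT, h3.symm⟩) hxT
      · exact absurd (Finset.mem_image.2 ⟨pr s, hprT, h3.symm⟩) hyR
      · left
        exact Finset.mem_image.2 ⟨pr s, hprT, h3.symm⟩
      · right
        exact Finset.mem_image.2 ⟨pr s, hprT, h3.symm⟩

/-- the cost of adding private neighbours -/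
theorem cost_bound {V : Type*} [DecidableEq V] (S T : Finset V) (f g m p : V → ℤ) (pr : V → V)
    (hTS : T ⊆ S)
    (h1 : ∀ s ∈ T, f (pr s) = f s ∨ g (pr s) = g s ∨ m (pr s) = m s ∨ p (pr s) = p s)
    (h2 : ∀ s ∈ T, (∃ t ∈ S, t ≠ s ∧ g t = g s) → g (pr s) ≠ g s)
    (h3 : ∀ s ∈ T, (∃ t ∈ S, t ≠ s ∧ f t = f s) ∨ (∃ t ∈ S, t ≠ s ∧ g t = g s) ∨
      (∃ t ∈ S, t ≠ s ∧ m t = m s) ∨ (∃ t ∈ S, t ≠ s ∧ p t = p s)) :
    2 * ((S ∪ T.image pr).image f).card + ((S ∪ T.image pr).image m).card +
      ((S ∪ T.image pr).image p).card ≤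
    2 * (S.image f).card + (S.image m).card + (S.image p).card +
      4 * (S.filter (fun s => ∃ t ∈ S, t ≠ s ∧ f t = f s)).card +
      4 * (S.filter (fun s => ∃ t ∈ S, t ≠ s ∧ m t = m s)).card +
      4 * (S.filter (fun s => ∃ t ∈ S, t ≠ s ∧ p t = p s)).card +
      3 * (S.filter (fun s => ∃ t ∈ S, t ≠ s ∧ g t = g s)).card := by
  classical
  have key : ∀ k : V → ℤ, ((S ∪ T.image pr).image k).card ≤
      (S.image k).card + (T.filter (fun s => k (pr s) ≠ k s)).card := by
    intro k
    have hsub : (S ∪ T.image pr).image k ⊆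
        S.image k ∪ (T.filter (fun s => k (pr s) ≠ k s)).image (fun s => k (pr s)) := by
      intro b hb
      obtain ⟨v, hv, rfl⟩ := Finset.mem_image.1 hb
      rcases Finset.mem_union.1 hv with hv | hv
      · exact Finset.mem_union_left _ (Finset.mem_image_of_mem _ hv)
      · obtain ⟨s, hs, rfl⟩ := Finset.mem_image.1 hv
        by_cases hk : k (pr s) = k s
        · refine Finset.mem_union_left _ ?_
          rw [hk]
          exact Finset.mem_image_of_mem _ (hTS hs)
        · refine Finset.mem_union_right _ ?_
          exact Finset.mem_image.2 ⟨s, Finset.mem_filter.2 ⟨hs, hk⟩, rfl⟩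
    have e1 := Finset.card_le_card hsub
    have e2 := Finset.card_union_le (S.image k)
      ((T.filter (fun s => k (pr s) ≠ k s)).image (fun s => k (pr s)))
    have e3 := Finset.card_image_le (s := T.filter (fun s => k (pr s) ≠ k s))
      (f := fun s => k (pr s))
    omega
  have hsum : 2 * (T.filter (fun s => f (pr s) ≠ f s)).card +
      (T.filter (fun s => m (pr s) ≠ m s)).card + (T.filter (fun s => p (pr s) ≠ p s)).card ≤
      4 * (T.filter (fun s => ∃ t ∈ S, t ≠ s ∧ f t = f s)).card +
      4 * (T.filter (fun s => ∃ t ∈ S, t ≠ s ∧ m t = m s)).card +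
      4 * (T.filter (fun s => ∃ t ∈ S, t ≠ s ∧ p t = p s)).card +
      3 * (T.filter (fun s => ∃ t ∈ S, t ≠ s ∧ g t = g s)).card := by
    simp only [Finset.card_filter, Finset.mul_sum, ← Finset.sum_add_distrib]
    refine Finset.sum_le_sum ?_
    intro s hs
    have e1 := h1 s hs
    have e2 := h2 s hs
    have e3 := h3 s hs
    have c1 : (if f (pr s) ≠ f s then 1 else 0) ≤ 1 := by split_ifs <;> omega
    have c2 : (if m (pr s) ≠ m s then 1 else 0) ≤ 1 := by split_ifs <;> omega
    have c3 : (if p (pr s) ≠ p s then 1 else 0) ≤ 1 := by split_ifs <;> omega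
    by_cases hg : ∃ t ∈ S, t ≠ s ∧ g t = g s
    · have hg' := e2 hg
      rw [if_pos hg]
      rcases e1 with h | h | h | h
      · rw [if_neg (not_not_intro h)]
        omega
      · exact absurd h hg'
      · rw [if_neg (not_not_intro h)]
        omega
      · rw [if_neg (not_not_intro h)]
        omega
    · rcases e3 with h | h | h | h
      · rw [if_pos h]
        omega
      · exact absurd h hg
      · rw [if_pos h]
        omega
      · rw [if_pos h]
        omega
  have := key f
  have := key m
  have := key p
  have : (T.filter (fun s => ∃ t ∈ S, t ≠ s ∧ f t = f s)).card ≤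
      (S.filter (fun s => ∃ t ∈ S, t ≠ s ∧ f t = f s)).card :=
    Finset.card_le_card (Finset.filter_subset_filter _ hTS)
  have : (T.filter (fun s => ∃ t ∈ S, t ≠ s ∧ g t = g s)).card ≤
      (S.filter (fun s => ∃ t ∈ S, t ≠ s ∧ g t = g s)).card :=
    Finset.card_le_card (Finset.filter_subset_filter _ hTS)
  have : (T.filter (fun s => ∃ t ∈ S, t ≠ s ∧ m t = m s)).card ≤
      (S.filter (fun s => ∃ t ∈ S, t ≠ s ∧ m t = m s)).card :=
    Finset.card_le_card (Finset.filter_subset_filter _ hTS)
  have : (T.filter (fun s => ∃ t ∈ S, t ≠ s ∧ p t = p s)).card ≤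
      (S.filter (fun s => ∃ t ∈ S, t ≠ s ∧ p t = p s)).card :=
    Finset.card_le_card (Finset.filter_subset_filter _ hTS)
  omega

end H83Q
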