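import Mathlib

/-!
# MP_475ccd_co: lower irredundance of queens graphs, definitions
-/

set_option autoImplicit false

namespace H83Q

variable {V : Type*}

/-- `w` lies in the closed neighbourhood of `v`. -/
def InNbr (G : SimpleGraph V) (v w : V) : Prop := w = v ∨ G.Adj v w

/-- `S` is irredundant: every `v ∈ S` has a private neighbour. -/
def Irredundant (G : SimpleGraph V) (S : Finset V) : Prop :=
  ∀ v ∈ S, ∃ w, InNbr G v w ∧ ∀ u ∈ S, u ≠ v → ¬ InNbr G u w

/-- `S` is irredundant and maximal under inclusion among irredundant sets. -/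
def MaxIrredundant (G : SimpleGraph V) (S : Finset V) : Prop :=
  Irredundant G S ∧ ∀ T : Finset V, Irredundant G T → S ⊆ T → S = T

/-- The lower irredundance number: the minimum size of a maximal irredundant set. -/
noncomputable def lowerIr (G : SimpleGraph V) : ℕ :=
  sInf {k : ℕ | ∃ S : Finset V, MaxIrredundant G S ∧ S.card = k}

/-- The queens graph of the `n × n` board. -/
def queens (n : ℕ) : SimpleGraph (Fin n × Fin n) where
  Adj p q := p ≠ q ∧ (p.1 = q.1 ∨ p.2 = q.2 ∨ |(p.1 : ℤ) - (q.1 : ℤ)| = |(p.2 : ℤ) - (q.2 : ℤ)|)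
  symm := ⟨fun p q h => ⟨h.1.symm, by
    rcases h.2 with h | h | h
    · exact Or.inl h.symm
    · exact Or.inr (Or.inl h.symm)
    · refine Or.inr (Or.inr ?_)
      rw [abs_sub_comm (q.1 : ℤ), abs_sub_comm (q.2 : ℤ)]
      exact h⟩⟩
  loopless := ⟨fun p h => h.1 rfl⟩

end H83Q
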