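import Pool.Agent.H.MP_475ccd_co.h83.Board

/-!
# MP_475ccd_co: the bounds
-/

set_option autoImplicit false

namespace H83Q

open Finset

variable {n : ℕ}

/-- Case B: the set with private neighbours added is dominating -/
theorem case_dominating {S : Finset (Fin n × Fin n)} (hS : Good S) :
    2 * n ≤ 2 * (S.image row).card + (S.image dif).card + (S.image sm).card +
      4 * (Sh row S).card + 4 * (Sh dif S).card + 4 * (Sh sm S).card + 3 * (Sh col S).card + 2 ∨
    2 * n ≤ 2 * (S.image col).card + (S.image dif).card + (S.image sm).card +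
      4 * (Sh col S).card + 4 * (Sh dif S).card + 4 * (Sh sm S).card + 3 * (Sh row S).card + 2 := by
  classical
  have hpr : ∃ pr : Fin n × Fin n → Fin n × Fin n, ∀ s ∈ S, Att s (pr s) ∧
      ∀ t ∈ S, t ≠ s → ¬ Att t (pr s) := by
    choose! pr hpr using hS.priv
    exact ⟨pr, fun s hs => hpr s hs⟩
  obtain ⟨pr, hpr⟩ := hpr
  set T := S.filter (fun s => ∃ u, (∀ t ∈ S, ¬ Att t u) ∧
    ∀ w, Att s w → (∀ t ∈ S, t ≠ s → ¬ Att t w) → Att u w) with hT
  have hTS : T ⊆ S := Finset.filter_subset _ _
  have hiso : ∀ s ∈ T, ∃ t ∈ S, t ≠ s ∧ Att t s := by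
    intro s hs
    obtain ⟨hsS, u, hu, huw⟩ := Finset.mem_filter.1 hs
    by_contra hcon
    push Not at hcon
    exact hu s hsS (att_symm (huw s (att_refl s) hcon))
  have hsp := spencer n ((S ∪ T.image pr).image col) ((S ∪ T.image pr).image row)
    ((S ∪ T.image pr).image dif) ((S ∪ T.image pr).image sm) ?_
  · rcases hsp with h | h
    · left
      have hc := cost_bound S T row col dif sm pr hTS ?_ ?_ ?_
      · unfold Sh
        omega
      · intro s hs
        rcases (hpr s (hTS hs)).1 with h | h | h | h
        · exact Or.inr (Or.inl h.symm)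
        · exact Or.inl h.symm
        · exact Or.inr (Or.inr (Or.inl h.symm))
        · exact Or.inr (Or.inr (Or.inr h.symm))
      · rintro s hs ⟨t, ht, hts, htc⟩ hc
        exact (hpr s (hTS hs)).2 t ht hts (Or.inl (htc.trans hc.symm))
      · intro s hs
        obtain ⟨t, ht, hts, h | h | h | h⟩ := hiso s hs
        · exact Or.inr (Or.inl ⟨t, ht, hts, h⟩)
        · exact Or.inl ⟨t, ht, hts, h⟩
        · exact Or.inr (Or.inr (Or.inl ⟨t, ht, hts, h⟩))
        · exact Or.inr (Or.inr (Or.inr ⟨t, ht, hts, h⟩))
    · right
      have hc := cost_bound S T col row dif sm pr hTS ?_ ?_ ?_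
      · unfold Sh
        omega
      · intro s hs
        rcases (hpr s (hTS hs)).1 with h | h | h | h
        · exact Or.inl h.symm
        · exact Or.inr (Or.inl h.symm)
        · exact Or.inr (Or.inr (Or.inl h.symm))
        · exact Or.inr (Or.inr (Or.inr h.symm))
      · rintro s hs ⟨t, ht, hts, htc⟩ hc
        exact (hpr s (hTS hs)).2 t ht hts (Or.inr (Or.inl (htc.trans hc.symm)))
      · intro s hs
        obtain ⟨t, ht, hts, h | h | h | h⟩ := hiso s hs
        · exact Or.inl ⟨t, ht, hts, h⟩
        · exact Or.inr (Or.inl ⟨t, ht, hts, h⟩)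
        · exact Or.inr (Or.inr (Or.inl ⟨t, ht, hts, h⟩))
        · exact Or.inr (Or.inr (Or.inr ⟨t, ht, hts, h⟩))
  · intro x y hx0 hxn hy0 hyn hxC hyR
    obtain ⟨x, rfl⟩ : ∃ x' : Fin n, (x' : ℤ) = x := ⟨⟨x.toNat, by omega⟩, by simp only []; omega⟩
    obtain ⟨y, rfl⟩ : ∃ y' : Fin n, (y' : ℤ) = y := ⟨⟨y.toNat, by omega⟩, by simp only []; omega⟩
    have main : ∀ t ∈ S ∪ T.image pr, Att t (x, y) →
        (x : ℤ) - y ∈ (S ∪ T.image pr).image dif ∨ (x : ℤ) + y ∈ (S ∪ T.image pr).image sm := by
      intro t ht hatt
      rcases hatt with h | h | h | h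
      · exact absurd (Finset.mem_image.2 ⟨t, ht, h⟩) hxC
      · exact absurd (Finset.mem_image.2 ⟨t, ht, h⟩) hyR
      · exact Or.inl (Finset.mem_image.2 ⟨t, ht, h⟩)
      · exact Or.inr (Finset.mem_image.2 ⟨t, ht, h⟩)
    by_cases hu : ∃ t ∈ S, Att t (x, y)
    · obtain ⟨t, ht, hatt⟩ := hu
      exact main t (Finset.mem_union_left _ ht) hatt
    · push Not at hu
      have hvS : ((x, y) : Fin n × Fin n) ∉ S := fun h => hu _ h (att_refl _)
      rcases hS.maxi (x, y) hvS with h | ⟨s, hs, h⟩
      · obtain ⟨t, ht, htw⟩ := h (x, y) (att_refl _)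
        exact absurd htw (hu t ht)
      · have hsT : s ∈ T := Finset.mem_filter.2 ⟨hs, (x, y), hu, h⟩
        exact main (pr s) (Finset.mem_union_right _ (Finset.mem_image_of_mem _ hsT))
          (att_symm (h (pr s) (hpr s hs).1 (hpr s hs).2))

theorem card_swap_images (S : Finset (Fin n × Fin n)) :
    (S.image Prod.swap).card = S.card ∧
    ((S.image Prod.swap).image row).card = (S.image col).card ∧
    ((S.image Prod.swap).image dif).card = (S.image dif).card ∧
    ((S.image Prod.swap).image sm).card = (S.image sm).card := by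
  classical
  refine ⟨Finset.card_image_of_injective _ Prod.swap_injective, ?_, ?_, ?_⟩
  · rw [Finset.image_image]
    rfl
  · have : (S.image Prod.swap).image dif = (S.image dif).image (fun m => -m) := by
      rw [Finset.image_image, Finset.image_image]
      refine Finset.image_congr ?_
      intro p _
      simp only [Function.comp, dif, Prod.fst_swap, Prod.snd_swap]
      ring
    rw [this]
    exact Finset.card_image_of_injective _ neg_injective
  · have : (S.image Prod.swap).image sm = S.image sm := by
      rw [Finset.image_image]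
      refine Finset.image_congr ?_
      intro p _
      simp only [Function.comp, sm, Prod.fst_swap, Prod.snd_swap]
      ring
    rw [this]

/-- Case A in the form used for the second bound -/
theorem case_column' {S : Finset (Fin n × Fin n)} (hS : Good S)
    (h : (S.image row).card + (S.image dif).card + (S.image sm).card + 4 ≤ n) :
    2 * n ≤ 5 * S.card + 2 := by
  classical
  refine case_column hS ?_ (by omega)
  intro s hs
  have e1 : ((S.erase s).image row).card ≤ (S.image row).card :=
    Finset.card_le_card (Finset.image_subset_image (Finset.erase_subset _ _))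
  have e2 : ((S.erase s).image dif).card ≤ (S.image dif).card :=
    Finset.card_le_card (Finset.image_subset_image (Finset.erase_subset _ _))
  have e3 : ((S.erase s).image sm).card ≤ (S.image sm).card :=
    Finset.card_le_card (Finset.image_subset_image (Finset.erase_subset _ _))
  omega

theorem bound_seven {S : Finset (Fin n × Fin n)} (hS : Good S) : 7 * n ≤ 20 * S.card + 19 := by
  classical
  by_cases hA : (S.image row).card + (S.image dif).card + (S.image sm).card + 4 ≤ n
  · have := case_column' hS hA
    omega
  by_cases hB : (S.image col).card + (S.image dif).card + (S.image sm).card + 4 ≤ n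
  · obtain ⟨h1, h2, h3, h4⟩ := card_swap_images S
    have := case_column' (good_swap hS) (by omega)
    omega
  have e1 := sh_card row S
  have e2 := sh_card col S
  have e3 := sh_card dif S
  have e4 := sh_card sm S
  have e5 : (S.image dif).card ≤ S.card := Finset.card_image_le
  have e6 : (S.image sm).card ≤ S.card := Finset.card_image_le
  rcases case_dominating hS with h | h
  · omega
  · omega

theorem bound_third (hn : 1 ≤ n) {S : Finset (Fin n × Fin n)} (hS : Good S) :
    n ≤ 3 * S.card := by
  classical
  by_contra hcon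
  push Not at hcon
  have hpos : 0 < S.card := by
    rw [Finset.card_pos]
    by_contra hne
    rw [Finset.not_nonempty_iff_eq_empty] at hne
    subst hne
    rcases hS.maxi (⟨0, by omega⟩, ⟨0, by omega⟩) (Finset.notMem_empty _) with h | ⟨s, hs, -⟩
    · obtain ⟨t, ht, -⟩ := h _ (att_refl _)
      exact absurd ht (Finset.notMem_empty _)
    · exact absurd hs (Finset.notMem_empty _)
  have := case_column hS ?_ ?_
  · omega
  · intro s hs
    have e0 : (S.erase s).card = S.card - 1 := Finset.card_erase_of_mem hs
    have e1 : ((S.erase s).image row).card ≤ (S.erase s).card := Finset.card_image_le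
    have e2 : ((S.erase s).image dif).card ≤ (S.erase s).card := Finset.card_image_le
    have e3 : ((S.erase s).image sm).card ≤ (S.erase s).card := Finset.card_image_le
    omega
  · have e1 : (S.image row).card ≤ S.card := Finset.card_image_le
    have e2 : (S.image dif).card ≤ S.card := Finset.card_image_le
    have e3 : (S.image sm).card ≤ S.card := Finset.card_image_le
    omega

theorem exists_maxIrredundant {V : Type*} [Fintype V] [DecidableEq V] (G : SimpleGraph V) :
    ∃ S : Finset V, MaxIrredundant G S := by
  classical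
  obtain ⟨S, hS, hmax⟩ := Finset.exists_max_image
    ((Finset.univ : Finset (Finset V)).filter (fun S => Irredundant G S)) Finset.card
    ⟨∅, Finset.mem_filter.2 ⟨Finset.mem_univ _, fun v hv => absurd hv (Finset.notMem_empty v)⟩⟩
  refine ⟨S, (Finset.mem_filter.1 hS).2, ?_⟩
  intro T hT hST
  exact Finset.eq_of_subset_of_card_le hST
    (hmax T (Finset.mem_filter.2 ⟨Finset.mem_univ _, hT⟩))

theorem lowerIr_spec (n : ℕ) :
    ∃ S : Finset (Fin n × Fin n), MaxIrredundant (queens n) S ∧ S.card = lowerIr (queens n) := by
  have hne : {k : ℕ | ∃ S : Finset (Fin n × Fin n), MaxIrredundant (queens n) S ∧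
      S.card = k}.Nonempty := by
    obtain ⟨S, hS⟩ := exists_maxIrredundant (queens n)
    exact ⟨S.card, S, hS, rfl⟩
  exact Nat.sInf_mem hne

theorem main (n : ℕ) (hn : 1 ≤ n) :
    n ≤ 3 * lowerIr (queens n) ∧ 7 * n ≤ 20 * lowerIr (queens n) + 19 := by
  obtain ⟨S, hS, hc⟩ := lowerIr_spec n
  rw [← hc]
  exact ⟨bound_third hn (good_of_max hS), bound_seven (good_of_max hS)⟩

end H83Q
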